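import Mathlib
import Pool.Agent.Helper85_SD.Lin

set_option autoImplicit false

open Finset Module
open scoped Pointwise

namespace Pool.Agent.Helper5_Moved.MP_589914_co.LinearBarrier

universe u v w

/-- Let `A i`, `B i` (`i < n`) be subsets of a finite abelian group `H` with all sums `a + b`,
`a ∈ A i`, `b ∈ B i`, distinct and with `A i + B j` disjoint from `A j + B k` for all `j` and all
`i < k` (both hold under the simultaneous double product property). Suppose that there are
subspaces `U i`, `W i` of a space `V` of dimension `D` over some field, with `U i ∩ W i = 0`,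
such that for `i ≠ j` the sum `A i + B j` is direct whenever `U i ∩ W j = 0`. Then
`(∑ |A i| |B i|) ^ 2 ≤ 4 ^ D n |H| ^ 2`; in particular, if `|H| ≥ 17 ^ D`, the family is not
near-optimal: `|H| ≤ n ^ (2 + ε)` and `∑ |A i| |B i| ≥ n ^ (3 - ε)` fail together for
every `ε < 1 / 211` and `n ≥ 2`. -/
theorem result (H : Type u) [AddCommGroup H] [Fintype H] [DecidableEq H] (n : ℕ)
    (A B : Fin n → Finset H)
    (h1 : ∀ i, (A i + B i).card = (A i).card * (B i).card)
    (h2 : ∀ i j k, i < k → Disjoint (A i + B j) (A j + B k))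
    (K : Type v) (V : Type w) [Field K] [AddCommGroup V] [Module K V] [FiniteDimensional K V]
    (U W : Fin n → Submodule K V) (hU : ∀ i, Disjoint (U i) (W i))
    (hd : ∀ i j, i ≠ j → Disjoint (U i) (W j) → (A i + B j).card = (A i).card * (B j).card) :
    (∑ i, ((A i).card : ℝ) * (B i).card) ^ 2 ≤
        4 ^ finrank K V * (n * (Fintype.card H : ℝ) ^ 2) ∧
      (17 ^ finrank K V ≤ Fintype.card H → ∀ ε : ℝ, ε < 1 / 211 → 2 ≤ n →
        (Fintype.card H : ℝ) ≤ (n : ℝ) ^ (2 + ε) →
        ∑ i, ((A i).card : ℝ) * (B i).card < (n : ℝ) ^ (3 - ε)) := by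
  have h3 := Helper85_SD.linear_bound A B h1 h2 U W hU hd
  refine ⟨h3, ?_⟩
  intro hH ε hε hn hh
  by_contra hc
  have h4 : (17 : ℝ) ^ finrank K V ≤ Fintype.card H := by exact_mod_cast hH
  have h5 := Helper85_SD.numbers hn h4 hh (not_lt.1 hc) h3
  linarith

end Pool.Agent.Helper5_Moved.MP_589914_co.LinearBarrier
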