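import Mathlib
import Pool.Agent.Helper79_SDPP.Removal

set_option autoImplicit false

open Finset
open scoped Pointwise

namespace Pool.Agent.Helper5_Moved.MP_589914_co.LittleOBarrier

universe u

/-- In every finite abelian group `H` that is large in terms of `ε`, any two families
`A_1, …, A_n`, `B_1, …, B_n` (with any number `n` of members) having the simultaneous double product
property satisfy `∑ |A_i| |B_i| ≤ ε |H|^(3/2)`. -/
theorem result (ε : ℝ) (hε : 0 < ε) : ∃ N : ℕ,
    ∀ (H : Type u) [AddCommGroup H] [Fintype H] [DecidableEq H], N ≤ Fintype.card H →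
    ∀ (n : ℕ) (A B : Fin n → Finset H),
      (∀ i, (A i + B i).card = (A i).card * (B i).card) →
      (∀ i j k, i ≠ k → Disjoint (A i + B j) (A j + B k)) →
      ∑ i, ((A i).card : ℝ) * ((B i).card : ℝ) ≤ ε * (Fintype.card H : ℝ) ^ (3 / 2 : ℝ) := by
  have hc : 0 < SimpleGraph.triangleRemovalBound (ε ^ 2 / 432) :=
    SimpleGraph.triangleRemovalBound_pos (by positivity)
  set c := SimpleGraph.triangleRemovalBound (ε ^ 2 / 432) with hcdef
  obtain ⟨N, hN⟩ := exists_nat_gt ((1 / (27 * c)) ^ 2)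
  refine ⟨N, ?_⟩
  intro H _ _ _ hH n A B h1 h2
  have hlt : (1 / (27 * c)) ^ 2 < (Fintype.card H : ℝ) :=
    lt_of_lt_of_le hN (by exact_mod_cast hH)
  have hsq : 1 / (27 * c) < √(Fintype.card H : ℝ) :=
    (Real.lt_sqrt (by positivity)).mpr hlt
  have hlarge : 1 < 27 * c * √(Fintype.card H : ℝ) := by
    rw [div_lt_iff₀ (by positivity)] at hsq
    linarith
  have h := Helper79_SDPP.sum_le_of_large hε (Finset.univ : Finset (Fin n)) ⟨h1, h2⟩ hlarge
  have e : (Fintype.card H : ℝ) ^ (3 / 2 : ℝ)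
      = (Fintype.card H : ℝ) * √(Fintype.card H : ℝ) := by
    have hpos : (0 : ℝ) < Fintype.card H := lt_of_le_of_lt (by positivity) hlt
    rw [Real.sqrt_eq_rpow]
    nth_rewrite 2 [← Real.rpow_one (Fintype.card H : ℝ)]
    rw [← Real.rpow_add hpos]
    norm_num
  rw [e]
  exact h

end Pool.Agent.Helper5_Moved.MP_589914_co.LittleOBarrier
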