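import Mathlib
import Pool.Agent.Helper79_SDPP.OneSided

set_option autoImplicit false

open Finset
open scoped Pointwise

namespace Pool.Agent.Helper5_Moved.MP_589914_co.OneSidedReduction

/-- Q1 (the left-hand side, in the form of the frozen statement) is equivalent to the following
one-sided, averaged, single-instance form: for every `ε > 0` there are an integer `n ≥ 2`, a finite
abelian group `H` with `|H| ≤ n^(2+ε)` and sets `A_i, B_i ⊆ H` (`i < n`) with
`|A_i + B_i| = |A_i| |B_i|`, geometric mean of the `|A_i| |B_i|` at least `n^(2-ε)`, and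
`(A_i + B_j) ∩ (A_j + B_k) = ∅` for all `j` and all `i < k` only. -/
theorem result :
    (∀ ε : ℝ, 0 < ε → ∀ N : ℕ, ∃ n : ℕ, N ≤ n ∧
      ∃ (H : Type) (_ : AddCommGroup H) (_ : Fintype H) (A B : Fin n → Set H),
        (n : ℝ) ^ (2 - ε) ≤ (Fintype.card H : ℝ) ∧
        (Fintype.card H : ℝ) ≤ (n : ℝ) ^ (2 + ε) ∧
        (∀ i : Fin n,
          (n : ℝ) ^ (2 - ε) ≤ ((A i).ncard : ℝ) * ((B i).ncard : ℝ) ∧
          (A i + B i).ncard = (A i).ncard * (B i).ncard) ∧
        (∀ i j k : Fin n, i ≠ k → Disjoint (A i + B j) (A j + B k)))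
    ↔
    (∀ ε : ℝ, 0 < ε → ∃ n : ℕ, 2 ≤ n ∧
      ∃ (H : Type) (_ : AddCommGroup H) (_ : Fintype H) (A B : Fin n → Set H),
        (Fintype.card H : ℝ) ≤ (n : ℝ) ^ (2 + ε) ∧
        (n : ℝ) ^ ((2 - ε) * n) ≤ ∏ i : Fin n, ((A i).ncard : ℝ) * ((B i).ncard : ℝ) ∧
        (∀ i : Fin n, (A i + B i).ncard = (A i).ncard * (B i).ncard) ∧
        (∀ i j k : Fin n, i < k → Disjoint (A i + B j) (A j + B k))) := by
  classical
  constructor
  · intro h ε hε
    obtain ⟨n, hn, H, _, _, A, B, h1, h2, h3, h4⟩ := h ε hε 2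
    refine ⟨n, hn, H, _, _, A, B, h2, ?_, fun i => (h3 i).2, fun i j k hik => h4 i j k hik.ne⟩
    have : (n : ℝ) ^ ((2 - ε) * n) = ∏ _i : Fin n, (n : ℝ) ^ (2 - ε) := by
      rw [Finset.prod_const, Finset.card_univ, Fintype.card_fin, Real.rpow_mul (Nat.cast_nonneg n),
        Real.rpow_natCast]
    rw [this]
    exact Finset.prod_le_prod (fun i _ => Real.rpow_nonneg (Nat.cast_nonneg n) _)
      (fun i _ => (h3 i).1)
  · intro h ε hε N₀
    set ε₁ : ℝ := min ε 1 with hε₁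
    have hε₁0 : 0 < ε₁ := lt_min hε one_pos
    have hε₁1 : ε₁ ≤ 1 := min_le_right _ _
    have hε₁ε : ε₁ ≤ ε := min_le_left _ _
    obtain ⟨n, hn, H, _, _, A, B, h1, h2, h3, h4⟩ := h (ε₁ / 2) (by positivity)
    set s : Fin n → ℝ := fun i => ((A i).ncard : ℝ) * ((B i).ncard : ℝ) with hs
    have hn0 : (0 : ℝ) < n := by exact_mod_cast (by omega : 0 < n)
    have hn1 : (1 : ℝ) < n := by exact_mod_cast (by omega : 1 < n)
    have hn1' : (1 : ℝ) ≤ n := hn1.le
    have hprodpos : 0 < ∏ i, s i := lt_of_lt_of_le (Real.rpow_pos_of_pos hn0 _) h2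
    have hspos : ∀ i, 0 < s i := by
      intro i
      have h0 : 0 ≤ s i := by positivity
      rcases h0.lt_or_eq with h5 | h5
      · exact h5
      · exfalso
        have : ∏ i, s i = 0 := Finset.prod_eq_zero (Finset.mem_univ i) h5.symm
        linarith
    -- choice of the length
    set δ : ℝ := ε₁ / 6 with hδ
    have hδ0 : 0 < δ := by positivity
    have hr : 1 < (n : ℝ) ^ δ := Real.one_lt_rpow hn1 hδ0
    have ht1 : Filter.Tendsto (fun L : ℕ => (L : ℝ) ^ 1 / ((n : ℝ) ^ δ) ^ L) Filter.atTop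
        (nhds 0) := tendsto_pow_const_div_const_pow_of_one_lt 1 hr
    have ht2 : Filter.Tendsto (fun L : ℕ => (L : ℝ) ^ 0 / ((n : ℝ) ^ δ) ^ L) Filter.atTop
        (nhds 0) := tendsto_pow_const_div_const_pow_of_one_lt 0 hr
    have ht3 : Filter.Tendsto (fun L : ℕ => (n : ℝ) * n * ((L : ℝ) ^ 1 / ((n : ℝ) ^ δ) ^ L)
        + n * ((L : ℝ) ^ 0 / ((n : ℝ) ^ δ) ^ L)) Filter.atTop (nhds 0) := by
      have := (ht1.const_mul ((n : ℝ) * n)).add (ht2.const_mul (n : ℝ))
      simpa using this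
    have hev1 := ht3.eventually (gt_mem_nhds (one_pos : (0 : ℝ) < 1))
    have hr2 : 1 < (n : ℝ) ^ (1 - δ) := Real.one_lt_rpow hn1 (by rw [hδ]; linarith)
    have hev2 := (tendsto_pow_atTop_atTop_of_one_lt hr2).eventually_ge_atTop (N₀ : ℝ)
    obtain ⟨L, hL1, hL2⟩ := (hev1.and hev2).exists
    obtain ⟨𝒞, hC1, hC2, hC3⟩ := Helper79_SDPP.exists_code hn s hspos L
    set M : ℕ := 𝒞.card with hM
    -- lower bound for M
    have hMlow : ((n : ℝ) ^ (1 - δ)) ^ L ≤ M := by
      have hrL : 0 < ((n : ℝ) ^ δ) ^ L := by positivity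
      have e1 : (n : ℝ) * (n * L + 1) ≤ ((n : ℝ) ^ δ) ^ L := by
        have e2 : (n : ℝ) * n * ((L : ℝ) ^ 1 / ((n : ℝ) ^ δ) ^ L)
            + n * ((L : ℝ) ^ 0 / ((n : ℝ) ^ δ) ^ L)
            = ((n : ℝ) * (n * L + 1)) / ((n : ℝ) ^ δ) ^ L := by
          field_simp
        have hL1' : ((n : ℝ) * (n * L + 1)) / ((n : ℝ) ^ δ) ^ L < 1 := by
          rw [← e2]; exact hL1
        rw [div_lt_one hrL] at hL1'
        exact hL1'.le
      have e3 : (n : ℝ) ^ L ≤ M * ((n : ℝ) * (n * L + 1)) := by exact_mod_cast hC3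
      have e4 : (n : ℝ) ^ L = ((n : ℝ) ^ (1 - δ)) ^ L * ((n : ℝ) ^ δ) ^ L := by
        rw [← mul_pow, ← Real.rpow_add hn0]
        norm_num
      have e5 : ((n : ℝ) ^ (1 - δ)) ^ L * ((n : ℝ) ^ δ) ^ L ≤ M * ((n : ℝ) ^ δ) ^ L := by
        rw [← e4]
        exact e3.trans (mul_le_mul_of_nonneg_left e1 (Nat.cast_nonneg _))
      exact le_of_mul_le_mul_right e5 hrL
    have hMup : (M : ℝ) ≤ (n : ℝ) ^ L := by
      have : M ≤ n ^ L := by
        rw [hM]
        refine (Finset.card_le_univ 𝒞).trans ?_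
        simp
      exact_mod_cast this
    have hM1 : (1 : ℝ) ≤ M := by
      have : (1 : ℝ) ≤ ((n : ℝ) ^ (1 - δ)) ^ L := one_le_pow₀ hr2.le
      exact this.trans hMlow
    have hM0 : (0 : ℝ) < M := by linarith
    -- size lower bound
    have hsize : ∀ u ∈ 𝒞, (M : ℝ) ^ (2 - ε) ≤ ∏ c, s (u c) := by
      intro u hu
      have e1 : (M : ℝ) ^ (2 - ε) ≤ (M : ℝ) ^ (2 - ε₁) :=
        Real.rpow_le_rpow_of_exponent_le hM1 (by linarith)
      have e2 : (M : ℝ) ^ (2 - ε₁) ≤ ((n : ℝ) ^ L) ^ (2 - ε₁) :=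
        Real.rpow_le_rpow hM0.le hMup (by linarith)
      have e3 : ((n : ℝ) ^ L) ^ (2 - ε₁) ≤ (n : ℝ) ^ ((2 - ε₁ / 2) * L) := by
        rw [← Real.rpow_natCast, ← Real.rpow_mul hn0.le]
        apply Real.rpow_le_rpow_of_exponent_le hn1'
        nlinarith [Nat.cast_nonneg (α := ℝ) L]
      have e4 : (n : ℝ) ^ ((2 - ε₁ / 2) * L) ≤ ∏ c, s (u c) := by
        have hpos : 0 < ∏ c, s (u c) := Finset.prod_pos (fun c _ => hspos _)
        have e5 : ((n : ℝ) ^ ((2 - ε₁ / 2) * L)) ^ n ≤ (∏ c, s (u c)) ^ n := by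
          calc ((n : ℝ) ^ ((2 - ε₁ / 2) * L)) ^ n
              = ((n : ℝ) ^ ((2 - ε₁ / 2) * n)) ^ L := by
                rw [← Real.rpow_natCast, ← Real.rpow_natCast, ← Real.rpow_mul hn0.le,
                  ← Real.rpow_mul hn0.le]
                ring_nf
            _ ≤ (∏ i, s i) ^ L := pow_le_pow_left₀ (by positivity) h2 L
            _ ≤ (∏ c, s (u c)) ^ n := hC2 u hu
        exact (pow_le_pow_iff_left₀ (by positivity) hpos.le (by omega)).mp e5
      exact e1.trans (e2.trans (e3.trans e4))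
    let e : Fin M ≃ 𝒞 := (Finset.equivFin 𝒞).symm
    let A' : Fin M → Set (Fin L → H) := fun m => Set.univ.pi (fun c => A ((e m : Fin L → Fin n) c))
    let B' : Fin M → Set (Fin L → H) := fun m => Set.univ.pi (fun c => B ((e m : Fin L → Fin n) c))
    have hA' : ∀ m, ((A' m).ncard : ℝ) * ((B' m).ncard : ℝ)
        = ∏ c, s ((e m : Fin L → Fin n) c) := by
      intro m
      simp only [A', B', Helper79_SDPP.ncard_pi]
      push_cast
      rw [← Finset.prod_mul_distrib]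
    have hdpp : ∀ m, (A' m + B' m).ncard = (A' m).ncard * (B' m).ncard := by
      intro m
      simp only [A', B', Helper79_SDPP.pi_add_pi, Helper79_SDPP.ncard_pi]
      rw [← Finset.prod_mul_distrib]
      exact Finset.prod_congr rfl (fun c _ => h3 _)
    have hle : ∀ m, ((A' m).ncard : ℝ) * ((B' m).ncard : ℝ)
        ≤ (Fintype.card (Fin L → H) : ℝ) := by
      intro m
      have h6 := hdpp m
      have h7 : (A' m + B' m).ncard ≤ Fintype.card (Fin L → H) := by
        rw [← Nat.card_eq_fintype_card, ← Set.ncard_univ]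
        exact Set.ncard_le_ncard (Set.subset_univ _) (Set.toFinite _)
      rw [h6] at h7
      exact_mod_cast h7
    refine ⟨M, ?_, (Fin L → H), inferInstance, inferInstance, A', B', ?_, ?_, ?_, ?_⟩
    · have : (N₀ : ℝ) ≤ M := hL2.trans hMlow
      exact_mod_cast this
    · have hne : 0 < M := by exact_mod_cast hM0
      let m : Fin M := ⟨0, hne⟩
      calc (M : ℝ) ^ (2 - ε) ≤ ∏ c, s ((e m : Fin L → Fin n) c) := hsize _ (e m).2
        _ = ((A' m).ncard : ℝ) * ((B' m).ncard : ℝ) := (hA' m).symm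
        _ ≤ _ := hle m
    · have e1 : (Fintype.card (Fin L → H) : ℝ) = (Fintype.card H : ℝ) ^ L := by
        rw [Fintype.card_fun, Fintype.card_fin]; push_cast; rfl
      rw [e1]
      calc (Fintype.card H : ℝ) ^ L ≤ ((n : ℝ) ^ (2 + ε₁ / 2)) ^ L :=
            pow_le_pow_left₀ (Nat.cast_nonneg _) h1 L
        _ ≤ (((n : ℝ) ^ (1 - δ)) ^ L) ^ (2 + ε₁) := by
            rw [← Real.rpow_natCast, ← Real.rpow_natCast, ← Real.rpow_mul hn0.le,
              ← Real.rpow_mul hn0.le, ← Real.rpow_mul hn0.le]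
            apply Real.rpow_le_rpow_of_exponent_le hn1'
            have hL0 : (0 : ℝ) ≤ L := Nat.cast_nonneg L
            have : (2 + ε₁ / 2) ≤ (1 - δ) * (2 + ε₁) := by rw [hδ]; nlinarith
            nlinarith
        _ ≤ (M : ℝ) ^ (2 + ε₁) := Real.rpow_le_rpow (by positivity) hMlow (by linarith)
        _ ≤ (M : ℝ) ^ (2 + ε) := Real.rpow_le_rpow_of_exponent_le hM1 (by linarith)
    · intro m
      refine ⟨?_, hdpp m⟩
      rw [hA']
      exact hsize _ (e m).2
    · intro i j k hik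
      have hne : (e i : Fin L → Fin n) ≠ (e k : Fin L → Fin n) := by
        intro hh
        exact hik (e.injective (Subtype.ext hh))
      obtain ⟨c, hc⟩ := hC1 _ (e i).2 _ (e k).2 hne
      rw [Set.disjoint_left]
      intro x hx hx'
      simp only [A', B', Helper79_SDPP.pi_add_pi, Set.mem_pi, Set.mem_univ,
        forall_true_left] at hx hx'
      have := h4 _ ((e j : Fin L → Fin n) c) _ hc
      rw [Set.disjoint_left] at this
      exact this (hx c) (hx' c)

end Pool.Agent.Helper5_Moved.MP_589914_co.OneSidedReduction
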